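import Pool.Agent.H889R3.SA.Stmts
import Pool.Agent.H572R4.QB.E4

set_option autoImplicit false

/-!
# Task G of the SA project (helper875): cold functions
-/

namespace Pool.Agent.H875R3.SA

open Finset Pool.Agent.H572R2 Pool.Agent.H572R4.QA Pool.Agent.H889R3.SA

variable {N : ℕ}

theorem QQ_eq_GG (hB2 : TaskB2) (f : (Fin N → Bool) → ℝ) (A : Finset (Fin N))
    (hA : ∀ i ∉ A, ∀ x, f (flp i x) = f x) (n m : ℕ) : QQ (cc n m) f f = GG n m A f := by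
  unfold QQ GG
  refine Finset.sum_congr rfl fun T _ => ?_
  by_cases hT : T.Nonempty
  · by_cases hTA : T ⊆ A
    · rw [if_pos hT, if_pos ⟨hT, hTA⟩, sq]
    · rw [if_pos hT, if_neg (fun h => hTA h.2)]
      obtain ⟨i, hiT, hiA⟩ := Finset.not_subset.1 hTA
      rw [hB2 N f i T (hA i hiA) hiT]
      ring
  · rw [if_neg hT, if_neg (fun h => hT h.1)]

theorem taskG (hF : TaskF) (hB2 : TaskB2) : TaskG := by
  intro N γ ε k s₀ hε hk hs₀ hγ T hT hεT ε₁ τ hε₁ hτ K S hK hS1 h1 h2 h3 h4 f w H A hA ha n m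
    hNn hmn hhS
  rw [QQ_eq_GG hB2 f A hA n m]
  have hκ : 0 < s₀ / γ := by positivity
  obtain ⟨κ, hκdef⟩ : ∃ κ, κ = s₀ / γ := ⟨_, rfl⟩
  have hκγ : s₀ = κ * γ := by rw [hκdef]; field_simp
  rw [← hκdef] at h2 h4 hκ
  have hS : 0 < S := by linarith
  have hKpos : 0 < K := by linarith
  have hT1 : (1 : ℝ) ≤ T := by exact_mod_cast hT
  have hthT0 : 0 < th γ ε T := by
    unfold th
    have : 0 ≤ 8 * ε * (T : ℝ) := by positivity
    linarith
  have hthT : th γ ε T ≤ 2 * γ := by unfold th; linarith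
  -- the parameters
  have hca : 0 < ε₁ / k := by positivity
  have hm0 : 0 < κ * τ * k / (γ * ε₁ ^ 2) := by positivity
  have hcam : ε₁ / k * (κ * τ * k / (γ * ε₁ ^ 2)) = κ * τ / (γ * ε₁) := by
    field_simp
  have hsmall : 4 * (ε₁ / k) * (κ * τ * k / (γ * ε₁ ^ 2)
      * Real.exp ((5 + 4 * Real.log K) * S)) ≤ 1 := by
    have e1 : Real.exp ((5 + 4 * Real.log K) * S)
        = Real.exp (5 * S) * Real.exp (4 * Real.log K * S) := by
      rw [← Real.exp_add]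
      congr 1
      ring
    rw [e1]
    have e2 : 4 * (ε₁ / k) * (κ * τ * k / (γ * ε₁ ^ 2)
        * (Real.exp (5 * S) * Real.exp (4 * Real.log K * S)))
        = 4 * κ * τ * Real.exp (5 * S) * Real.exp (4 * Real.log K * S) / (γ * ε₁) := by
      rw [show 4 * (ε₁ / k) * (κ * τ * k / (γ * ε₁ ^ 2)
        * (Real.exp (5 * S) * Real.exp (4 * Real.log K * S)))
        = 4 * (ε₁ / k * (κ * τ * k / (γ * ε₁ ^ 2)))
          * (Real.exp (5 * S) * Real.exp (4 * Real.log K * S)) by ring, hcam]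
      ring
    rw [e2, div_le_one (by positivity)]
    exact h4
  have hcardA : A.card ≤ n := by
    have := Finset.card_le_univ A
    rw [Fintype.card_fin] at this
    omega
  have hP := hF N γ ε k s₀ hε hk.le hs₀.le hγ T hT (ε₁ / k)
    (κ * τ * k / (γ * ε₁ ^ 2)) K S
    (th γ ε T * s₀ / 2 + 4 * (k / (4 * ε ^ 2)) * (s₀ / γ) / (ε₁ / k * K)
      + (1 / 2 : ℝ) ^ T * (s₀ / γ) / (5 * (ε₁ / k) * (κ * τ * k / (γ * ε₁ ^ 2))))
    hca hm0 hK hsmall le_rfl n m A hmn hcardA 0 le_rfl (by rw [zero_add]; exact hhS) f w H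
  -- the terms
  have hY := E4_yh γ ε k s₀ hε hγ T hT hεT τ hτ H A ha
  rw [← hκdef] at hY
  have t1 : 1 / (4 * (ε₁ / k) * (κ * τ * k / (γ * ε₁ ^ 2)
      * Real.exp ((5 + 4 * Real.log K) * 0))) * Yh γ ε T f A ≤ ε₁ := by
    rw [mul_zero, Real.exp_zero, mul_one]
    rw [show 4 * (ε₁ / k) * (κ * τ * k / (γ * ε₁ ^ 2))
      = 4 * (ε₁ / k * (κ * τ * k / (γ * ε₁ ^ 2))) by ring, hcam]
    have e3 : 1 / (4 * (κ * τ / (γ * ε₁))) = γ * ε₁ / (4 * κ * τ) := by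
      field_simp
    rw [e3]
    calc γ * ε₁ / (4 * κ * τ) * Yh γ ε T f A
        ≤ γ * ε₁ / (4 * κ * τ) * (4 * τ * κ / γ) :=
          mul_le_mul_of_nonneg_left hY (by positivity)
      _ = ε₁ := by field_simp
  have t3 : ε₁ / k * ∑ i ∈ A, EE (w i) ≤ ε₁ := by
    have h6 : ∑ i ∈ A, EE (w i) ≤ k := by
      rw [← EE_sum]
      have h7 : EE (fun x => ∑ i ∈ A, w i x) ≤ EE (fun _ : Fin N → Bool => k) := by
        apply EE_mono
        intro x
        exact (Finset.sum_le_sum_of_subset_of_nonneg (Finset.subset_univ A)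
          (fun i _ _ => H.w0 i x)).trans (H.wk x)
      rwa [EE_const] at h7
    calc ε₁ / k * ∑ i ∈ A, EE (w i) ≤ ε₁ / k * k :=
          mul_le_mul_of_nonneg_left h6 (by positivity)
      _ = ε₁ := by field_simp
  have c1 : th γ ε T * s₀ / 2 * S ≤ ε₁ := by
    have : th γ ε T * s₀ / 2 ≤ γ * s₀ := by nlinarith
    exact (mul_le_mul_of_nonneg_right this hS.le).trans h1
  have c2 : 4 * (k / (4 * ε ^ 2)) * κ / (ε₁ / k * K) * S ≤ ε₁ := by
    have e5 : 4 * (k / (4 * ε ^ 2)) * κ / (ε₁ / k * K) * S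
        = k ^ 2 * κ * S / (ε ^ 2 * ε₁ * K) := by
      field_simp
    rw [e5, div_le_iff₀ (by positivity)]
    calc k ^ 2 * κ * S ≤ ε ^ 2 * ε₁ ^ 2 * K := h2
      _ = ε₁ * (ε ^ 2 * ε₁ * K) := by ring
  have c3 : (1 / 2 : ℝ) ^ T * κ / (5 * (ε₁ / k) * (κ * τ * k / (γ * ε₁ ^ 2))) * S
      ≤ ε₁ := by
    rw [show 5 * (ε₁ / k) * (κ * τ * k / (γ * ε₁ ^ 2))
      = 5 * (ε₁ / k * (κ * τ * k / (γ * ε₁ ^ 2))) by ring, hcam]
    have e6 : (1 / 2 : ℝ) ^ T * κ / (5 * (κ * τ / (γ * ε₁))) * S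
        = ((1 / 2 : ℝ) ^ T * γ * S) * ε₁ / (5 * τ) := by
      field_simp
    rw [e6, div_le_iff₀ (by positivity)]
    calc (1 / 2 : ℝ) ^ T * γ * S * ε₁ ≤ (5 * τ) * ε₁ :=
          mul_le_mul_of_nonneg_right h3 hε₁.le
      _ = ε₁ * (5 * τ) := by ring
  have t4 : th γ ε T / 4 * ∑ i ∈ A, EE (dd f i) ≤ ε₁ := by
    have h6 : ∑ i ∈ A, EE (dd f i) ≤ s₀ := by
      rw [← EE_sum]
      have h7 : EE (fun x => ∑ i ∈ A, dd f i x) ≤ EE (fun _ : Fin N → Bool => s₀) := by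
        apply EE_mono
        intro x
        refine (Finset.sum_le_sum_of_subset_of_nonneg (Finset.subset_univ A)
          (fun i _ _ => ?_)).trans (H.infl x)
        unfold dd
        exact abs_nonneg _
      rwa [EE_const] at h7
    have h8 : th γ ε T * s₀ / 4 ≤ γ * s₀ := by nlinarith
    have h9 : γ * s₀ ≤ γ * s₀ * S := by
      have h10 : 0 ≤ γ * s₀ := by positivity
      nlinarith
    calc th γ ε T / 4 * ∑ i ∈ A, EE (dd f i) ≤ th γ ε T / 4 * s₀ :=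
          mul_le_mul_of_nonneg_left h6 (by positivity)
      _ = th γ ε T * s₀ / 4 := by ring
      _ ≤ ε₁ := by linarith
  unfold Phi3 at hP
  rw [← hκdef] at hP
  have hcr : (th γ ε T * s₀ / 2 + 4 * (k / (4 * ε ^ 2)) * κ / (ε₁ / k * K)
      + (1 / 2 : ℝ) ^ T * κ / (5 * (ε₁ / k) * (κ * τ * k / (γ * ε₁ ^ 2)))) * (S - 0)
      ≤ 3 * ε₁ := by
    have : (th γ ε T * s₀ / 2 + 4 * (k / (4 * ε ^ 2)) * κ / (ε₁ / k * K)
      + (1 / 2 : ℝ) ^ T * κ / (5 * (ε₁ / k) * (κ * τ * k / (γ * ε₁ ^ 2)))) * (S - 0)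
      = th γ ε T * s₀ / 2 * S + 4 * (k / (4 * ε ^ 2)) * κ / (ε₁ / k * K) * S
      + (1 / 2 : ℝ) ^ T * κ / (5 * (ε₁ / k) * (κ * τ * k / (γ * ε₁ ^ 2))) * S := by ring
    rw [this]
    linarith
  linarith

end Pool.Agent.H875R3.SA
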